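import Pool.Agent.Helper64.HG.Stmts

set_option autoImplicit false

namespace Pool.Agent.Helper64.HG

open SimpleGraph

theorem st_GIR : ST_GIR := by
  intro V G
  rw [SimpleGraph.le_egirth]
  constructor
  · intro h
    constructor
    · intro a b c hab hbc hac
      have h1 : (Walk.cons hab (Walk.cons hbc (Walk.cons hac.symm Walk.nil))).IsCycle := by
        rw [Walk.cons_isCycle_iff, Walk.cons_isPath_iff, Walk.cons_isPath_iff]
        simp [hab.ne, hbc.ne, hac.ne, hab.ne.symm, hbc.ne.symm, hac.ne.symm]
      have h2 := h _ _ h1
      simp only [Walk.length_cons, Walk.length_nil] at h2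
      exact absurd h2 (by decide)
    · intro a b c d hac hbd hab hbc hcd hda
      have h1 : (Walk.cons hab (Walk.cons hbc (Walk.cons hcd (Walk.cons hda Walk.nil)))).IsCycle := by
        rw [Walk.cons_isCycle_iff, Walk.cons_isPath_iff, Walk.cons_isPath_iff, Walk.cons_isPath_iff]
        simp [hab.ne, hbc.ne, hcd.ne, hda.ne, hab.ne.symm, hbc.ne.symm, hcd.ne.symm, hda.ne.symm,
          hac, hbd, hac.symm, hbd.symm]
      have h2 := h _ _ h1
      simp only [Walk.length_cons, Walk.length_nil] at h2
      exact absurd h2 (by decide)
  · rintro ⟨h3, h4⟩ a w hw
    have hlen := hw.three_le_length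
    cases w with
    | nil => simp at hlen
    | @cons _ b _ hab w1 =>
      cases w1 with
      | nil => exact absurd hab (G.irrefl)
      | @cons _ c _ hbc w2 =>
        cases w2 with
        | nil => simp at hlen
        | @cons _ d _ hcd w3 =>
          cases w3 with
          | nil => exact absurd hcd.symm (h3 a b c hab hbc)
          | @cons _ e _ hde w4 =>
            cases w4 with
            | nil =>
              rw [Walk.cons_isCycle_iff, Walk.cons_isPath_iff, Walk.cons_isPath_iff,
                Walk.cons_isPath_iff] at hw
              obtain ⟨⟨⟨⟨-, h5⟩, h6⟩, h7⟩, -⟩ := hw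
              simp only [Walk.support_cons, Walk.support_nil, List.mem_cons, List.not_mem_nil,
                or_false, not_or] at h5 h6 h7
              exact absurd hde (h4 a b c d (fun h => h6.2 h.symm) h7.2.1 hab hbc hcd)
            | cons h5 w5 =>
              simp only [Walk.length_cons]
              push_cast
              have : (5 : ℕ∞) = 0 + 1 + 1 + 1 + 1 + 1 := by norm_num
              rw [this]
              gcongr
              exact zero_le

end Pool.Agent.Helper64.HG
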