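import Pool.Agent.Helper64.HG.Stmts

set_option autoImplicit false

namespace Pool.Agent.Helper64.HG

theorem st_XFER : ST_XFER := by
  classical
  intro V _ α _ G l r hM
  have : Fintype V := Fintype.ofFinite V
  set T : Finset α := (Finset.univ.image l) ∪ (Finset.univ.image r) with hT
  let f : α → ℝ := fun x => ((T.filter (fun y => y < x)).card : ℝ)
  have hlt : ∀ x ∈ T, ∀ y, x < y → f x < f y := by
    intro x hx y hxy
    simp only [f, Nat.cast_lt]
    refine Finset.card_lt_card ⟨fun z hz => ?_, fun h => ?_⟩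
    · have hz := Finset.mem_filter.1 hz
      exact Finset.mem_filter.2 ⟨hz.1, hz.2.trans hxy⟩
    · have h1 := h (Finset.mem_filter.2 ⟨hx, hxy⟩)
      exact absurd (Finset.mem_filter.1 h1).2 (lt_irrefl x)
  have hiff : ∀ x ∈ T, ∀ y ∈ T, (f x < f y ↔ x < y) := by
    intro x hx y hy
    refine ⟨fun h => ?_, hlt x hx y⟩
    by_contra hcon
    rcases (not_lt.1 hcon).lt_or_eq with h1 | h1
    · exact absurd (hlt y hy x h1) (not_lt.2 h.le)
    · rw [h1] at h
      exact absurd h (lt_irrefl _)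
  have hinj : ∀ x ∈ T, ∀ y ∈ T, f x = f y → x = y := by
    intro x hx y hy h
    rcases lt_trichotomy x y with h1 | h1 | h1
    · exact absurd h (hlt x hx y h1).ne
    · exact h1
    · exact absurd h (hlt y hy x h1).ne'
  have hl : ∀ v, l v ∈ T := fun v =>
    Finset.mem_union_left _ (Finset.mem_image_of_mem l (Finset.mem_univ v))
  have hr : ∀ v, r v ∈ T := fun v =>
    Finset.mem_union_right _ (Finset.mem_image_of_mem r (Finset.mem_univ v))
  refine ⟨f ∘ l, f ∘ r, ?_, ?_, ?_, ?_, ?_⟩
  · intro v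
    exact hlt _ (hl v) _ (hM.lt v)
  · intro u v h
    exact hM.injl (hinj _ (hl u) _ (hl v) h)
  · intro u v h
    exact hM.injr (hinj _ (hr u) _ (hr v) h)
  · intro u v h
    exact hM.ne u v (hinj _ (hl u) _ (hr v) h)
  · intro u v
    rw [hM.adj]
    simp only [Ovl, Function.comp]
    rw [hiff _ (hl u) _ (hl v), hiff _ (hl v) _ (hr u), hiff _ (hr u) _ (hr v),
      hiff _ (hl v) _ (hl u), hiff _ (hl u) _ (hr v), hiff _ (hr v) _ (hr u)]

end Pool.Agent.Helper64.HG
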